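import Pool.Agent.N783.PF.Lat

/-!
# The primes which divide `f'(θ)`; primes lie over primes (parts RAM and LIE of project PF)

The norm formulas are a port of `Pool/Agent/N833/PQ/Int.lean` (helper833), `N769/PJ/Int.lean`.
-/

set_option autoImplicit false
set_option linter.all false

open Polynomial IsDedekindDomain Matrix NumberField
open scoped Classical

namespace Pool.Agent.N459.PF

open Pool.Agent.N783.PF

/-- Every prime of `L` lies over a prime of `F`. -/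
theorem lie : S_LIE := by
  intro F L _ _ _ _ _ 𝔓
  let w : HeightOneSpectrum (𝓞 F) := 𝔓.under (𝓞 F)
  have hw : ∀ a : 𝓞 F, a ∈ w.asIdeal ↔ algebraMap (𝓞 F) (𝓞 L) a ∈ 𝔓.asIdeal := fun a => Iff.rfl
  haveI : 𝔓.asIdeal.LiesOver w.asIdeal := ⟨rfl⟩
  have hv := HeightOneSpectrum.valuation_liesOver (K := F) L w 𝔓
  have he : w.asIdeal.ramificationIdx' 𝔓.asIdeal ≠ 0 :=
    Ideal.IsDedekindDomain.ramificationIdx'_ne_zero_of_liesOver 𝔓.asIdeal w.ne_bot
  refine ⟨w, fun a ha => (hw a).1 ha, hw, fun x => ⟨fun h => ?_, fun h => ?_⟩⟩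
  · rw [← hv x]
    exact pow_le_one' h _
  · rw [← hv x]
    exact pow_lt_one' h he

section gen

variable {g : ℕ} {F L : Type} [Field F] [NumberField F] [Field L] [NumberField L] [Algebra F L]
  {f : (𝓞 F)[X]} {θ : L}

/-- The power basis. -/
noncomputable def pb (h : IsGen g f θ) : PowerBasis F L where
  gen := θ
  dim := 2 * g + 1
  basis := h.basis
  basis_eq_pow := h.basis_apply

theorem minp (h : IsGen g f θ) : minpoly F θ = fF f := by
  have h2 := minpoly.dvd F θ h.root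
  have h3 : (minpoly F θ).natDegree = 2 * g + 1 := (pb h).natDegree_minpoly
  have hi : IsIntegral F θ := (pb h).isIntegral_gen
  have h4 : (fF f).natDegree = 2 * g + 1 := by
    rw [fF, h.mon.natDegree_map, h.deg]
  exact (Polynomial.eq_of_monic_of_dvd_of_natDegree_le (minpoly.monic hi) (h.mon.map _) h2
    (by rw [h3, h4])).symm

theorem dsc_map (h : IsGen g f θ) : algebraMap (𝓞 F) F (dsc g f) =
    (fF f).resultant (derivative (fF f)) (2 * g + 1) (2 * g) := by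
  rw [fF, derivative_map, resultant_map_map, dsc]

theorem deg_der (h : IsGen g f θ) : (derivative (fF f)).natDegree ≤ 2 * g := by
  refine (natDegree_derivative_le _).trans ?_
  rw [fF, h.mon.natDegree_map, h.deg]
  omega

theorem sep (h : IsGen g f θ) (hd : dsc g f ≠ 0) : (fF f).Separable := by
  set G := fF f with hG
  have hdeg : G.natDegree = 2 * g + 1 := by
    rw [hG, fF, h.mon.natDegree_map, h.deg]
  have h1 : G.resultant (derivative G) (2 * g + 1) (2 * g) ≠ 0 := by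
    rw [hG, ← dsc_map h]
    rwa [Ne, IsFractionRing.to_map_eq_zero_iff (R := 𝓞 F)]
  have h2 : G.resultant (derivative G) ≠ 0 := by
    intro h0
    apply h1
    obtain ⟨j, hj⟩ := Nat.exists_eq_add_of_le (deg_der h)
    rw [← hG] at hj
    have h5 := resultant_add_right_deg G (derivative G) (2 * g + 1) (derivative G).natDegree j
      le_rfl
    rw [← hj, ← hdeg, h0, mul_zero] at h5
    rw [← hdeg, h5]
  have h3 := mt resultant_eq_zero_iff.2 h2
  rw [not_and, not_not] at h3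
  have hF0 : G ≠ 0 := (h.mon.map _).ne_zero
  exact h3 (Or.inl hF0)

theorem nrm (h : IsGen g f θ) (hd : dsc g f ≠ 0) (p : F[X]) (n : ℕ) (hp : p.natDegree ≤ n) :
    Algebra.norm F (aeval θ p) = (fF f).resultant p (2 * g + 1) n := by
  haveI : FiniteDimensional F L := Module.Finite.of_basis h.basis
  set G := fF f with hG
  have hdeg : G.natDegree = 2 * g + 1 := by
    rw [hG, fF, h.mon.natDegree_map, h.deg]
  set E := AlgebraicClosure L
  apply (algebraMap F E).injective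
  rw [Algebra.norm_eq_prod_embeddings]
  have hsp : (G.map (algebraMap F E)).Splits := IsAlgClosed.splits _
  have hm : (G.map (algebraMap F E)).Monic := (h.mon.map _).map _
  have hdeg' : (G.map (algebraMap F E)).natDegree = 2 * g + 1 := by
    rw [Monic.natDegree_map (h.mon.map _), hdeg]
  rw [← resultant_map_map, ← hdeg', resultant_eq_prod_eval _ _ _ (natDegree_map_le.trans hp) hsp,
    hm.leadingCoeff, one_pow, one_mul]
  have hmp : minpoly F (pb h).gen = G := minp h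
  have hnd : ((minpoly F (pb h).gen).aroots E).Nodup := by
    rw [hmp]
    exact nodup_roots (sep h hd).map
  have key : ∏ σ : L →ₐ[F] E, σ (aeval θ p) =
      ∏ x : {y : E // y ∈ (minpoly F (pb h).gen).aroots E}, (p.map (algebraMap F E)).eval (x : E) :=
    Fintype.prod_equiv (pb h).liftEquiv' _ _ fun σ => by
      rw [PowerBasis.liftEquiv'_apply_coe, ← aeval_algHom_apply, eval_map_algebraMap]
      rfl
  rw [key, Finset.prod_mem_multiset _ _ (fun x => (p.map (algebraMap F E)).eval x)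
    (fun _ => rfl), Finset.prod_eq_multiset_prod, Multiset.toFinset_val,
    Multiset.dedup_eq_self.mpr hnd, hmp]

theorem theta_int (h : IsGen g f θ) : IsIntegral ℤ θ := by
  have h1 : IsIntegral (𝓞 F) θ := by
    refine ⟨f, h.mon, ?_⟩
    have h2 := h.root
    rw [fF, aeval_map_algebraMap] at h2
    exact h2
  exact isIntegral_trans θ h1

/-- The ideal norm of `f'(θ)`. -/
theorem rel (h : IsGen g f θ) (hd : dsc g f ≠ 0) : ∃ d : 𝓞 L,
    algebraMap (𝓞 L) L d = aeval θ (derivative (fF f)) ∧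
      Ideal.relNorm (𝓞 F) (Ideal.span {d}) = Ideal.span {dsc g f} := by
  obtain ⟨θ', hθ'⟩ : ∃ θ' : 𝓞 L, algebraMap (𝓞 L) L θ' = θ := ⟨⟨θ, theta_int h⟩, rfl⟩
  refine ⟨aeval θ' (derivative f), ?_, ?_⟩
  · rw [← aeval_algebraMap_apply, hθ', fF, derivative_map, aeval_map_algebraMap]
  · rw [Ideal.relNorm_singleton]
    congr 1
    have h1 : Algebra.intNorm (𝓞 F) (𝓞 L) (aeval θ' (derivative f)) = dsc g f := by
      apply IsFractionRing.injective (𝓞 F) F
      rw [Algebra.algebraMap_intNorm (L := L), ← aeval_algebraMap_apply, hθ', dsc_map h,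
        ← nrm h hd _ _ (deg_der h), fF, derivative_map, aeval_map_algebraMap]
    rw [h1]

end gen

/-- The primes which divide `f'(θ)`. -/
theorem ram (_h : S_INT) : S_RAM := by
  intro g F L _ _ _ _ _ f θ hG hsq 𝔭 h𝔭 h𝔭0 𝔓₀ hOv hlt
  have hd : dsc g f ≠ 0 := fun h0 => hsq 𝔭 h𝔭 h𝔭0 (by rw [h0]; exact Ideal.zero_mem _)
  obtain ⟨d, hd1, hd2⟩ := rel hG hd
  obtain ⟨θ', hθ'⟩ : ∃ θ' : 𝓞 L, algebraMap (𝓞 L) L θ' = θ := ⟨⟨θ, theta_int hG⟩, rfl⟩
  haveI h𝔭m : 𝔭.IsMaximal := h𝔭.isMaximal h𝔭0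
  have hlo : ∀ 𝔓 : HeightOneSpectrum (𝓞 L), Ov 𝔭 𝔓 → 𝔓.asIdeal.LiesOver 𝔭 := by
    intro 𝔓 h
    refine ⟨?_⟩
    refine h𝔭m.eq_of_le ?_ fun a ha => h a ha
    exact (Ideal.IsPrime.under (𝓞 F) 𝔓.asIdeal).ne_top
  have hrn : ∀ 𝔓 : HeightOneSpectrum (𝓞 L), Ov 𝔭 𝔓 →
      Ideal.relNorm (𝓞 F) 𝔓.asIdeal = 𝔭 ^ 𝔓.asIdeal.inertiaDeg (𝓞 F) ∧
        0 < 𝔓.asIdeal.inertiaDeg (𝓞 F) := by
    intro 𝔓 h
    haveI := hlo 𝔓 h
    haveI := 𝔓.isMaximal
    exact ⟨Ideal.relNorm_eq_pow_of_isMaximal 𝔓.asIdeal 𝔭, Ideal.inertiaDeg_pos _ _⟩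
  have hmem : ∀ 𝔓 : HeightOneSpectrum (𝓞 L),
      𝔓.valuation L (aeval θ (derivative (fF f))) < 1 ↔ d ∈ 𝔓.asIdeal := by
    intro 𝔓
    rw [← hd1, HeightOneSpectrum.valuation_lt_one_iff_mem]
  have hnot : ∀ (I : Ideal (𝓞 L)) (k : ℕ), d ∈ I → 2 ≤ k → Ideal.relNorm (𝓞 F) I = 𝔭 ^ k →
      False := by
    intro I k h1 h2 h3
    have h4 : Ideal.relNorm (𝓞 F) (Ideal.span {d}) ≤ Ideal.relNorm (𝓞 F) I :=
      Ideal.relNorm_mono _ ((Ideal.span_singleton_le_iff_mem _).2 h1)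
    rw [hd2, h3] at h4
    exact hsq 𝔭 h𝔭 h𝔭0 (Ideal.pow_le_pow_right h2 ((Ideal.span_singleton_le_iff_mem _).1 h4))
  have hd0 : d ∈ 𝔓₀.asIdeal := (hmem 𝔓₀).1 hlt
  obtain ⟨hr0, hp0⟩ := hrn 𝔓₀ hOv
  constructor
  · have hf1 : 𝔓₀.asIdeal.inertiaDeg (𝓞 F) = 1 := by
      by_contra hne
      exact hnot _ _ hd0 (by omega) hr0
    haveI := hlo 𝔓₀ hOv
    haveI := 𝔓₀.isMaximal
    rw [Ideal.inertiaDeg_eq_of_isMaximal 𝔭] at hf1
    letI : Field (𝓞 F ⧸ 𝔭) := Ideal.Quotient.field 𝔭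
    obtain ⟨c, hc⟩ := (Subalgebra.bot_eq_top_of_finrank_eq_one hf1).symm ▸
      (Algebra.mem_top : (Ideal.Quotient.mk 𝔓₀.asIdeal θ') ∈
        (⊤ : Subalgebra (𝓞 F ⧸ 𝔭) (𝓞 L ⧸ 𝔓₀.asIdeal)))
    obtain ⟨c, rfl⟩ := Ideal.Quotient.mk_surjective c
    refine ⟨c, ?_⟩
    have h5 : Ideal.Quotient.mk 𝔓₀.asIdeal (algebraMap (𝓞 F) (𝓞 L) c) =
        Ideal.Quotient.mk 𝔓₀.asIdeal θ' := hc
    have h6 : θ' - algebraMap (𝓞 F) (𝓞 L) c ∈ 𝔓₀.asIdeal := by
      rw [← Ideal.Quotient.eq]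
      exact h5.symm
    have h7 : θ - algebraMap F L (c : F) = algebraMap (𝓞 L) L (θ' - algebraMap (𝓞 F) (𝓞 L) c) := by
      rw [map_sub, hθ']
      rfl
    rw [h7, HeightOneSpectrum.valuation_lt_one_iff_mem]
    exact h6
  · intro 𝔓 h1 h2
    refine le_antisymm ?_ (not_lt.1 fun h3 => ?_)
    · rw [← hd1]
      exact 𝔓.valuation_le_one _
    · have h4 : d ∈ 𝔓.asIdeal := (hmem 𝔓).1 h3
      obtain ⟨hr1, hp1⟩ := hrn 𝔓 h1
      refine hnot (𝔓.asIdeal * 𝔓₀.asIdeal)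
        (𝔓.asIdeal.inertiaDeg (𝓞 F) + 𝔓₀.asIdeal.inertiaDeg (𝓞 F)) ?_ (by omega) ?_
      · haveI := 𝔓.isMaximal
        haveI := 𝔓₀.isMaximal
        have h5 : IsCoprime 𝔓.asIdeal 𝔓₀.asIdeal := by
          rw [Ideal.isCoprime_iff_sup_eq]
          exact Ideal.IsMaximal.coprime_of_ne 𝔓.isMaximal 𝔓₀.isMaximal
            fun h => h2 (HeightOneSpectrum.ext h)
        rw [← Ideal.inf_eq_mul_of_isCoprime h5]
        exact ⟨h4, hd0⟩
      · rw [map_mul, hr1, hr0, pow_add]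

end Pool.Agent.N459.PF
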